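import Mathlib

open MeasureTheory Set Filter Topology Metric Complex
open scoped RealInnerProductSpace FourierTransform Convolution Laplacian Real

namespace Pool.Agent.H.MP_ef05c8_mp.M

abbrev E (d : ℕ) := EuclideanSpace ℝ (Fin d)

variable {d : ℕ}

noncomputable def conv (f g : E d → ℝ) (x : E d) : ℝ := ∫ y, f (x - y) * g y

noncomputable def F (f : E d → ℝ) : E d → ℂ := 𝓕 fun x => (f x : ℂ)

noncomputable def ee (k x : E d) : ℂ := cexp (↑(-2 * π * ⟪x, k⟫) * I)

lemma F_eq (f : E d → ℝ) (k : E d) : F f k = ∫ x, ee k x * f x := by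
  rw [F, Real.fourier_eq']
  rfl

lemma norm_ee (k x : E d) : ‖ee k x‖ = 1 := norm_exp_ofReal_mul_I _

lemma cont_ee (k : E d) : Continuous (ee k) := by
  unfold ee
  fun_prop

variable {f g : E d → ℝ}

lemma int_ee (hf : Integrable f) (k : E d) : Integrable fun x => ee k x * f x :=
  hf.ofReal.bdd_mul (c := 1) (cont_ee k).aestronglyMeasurable
    (Eventually.of_forall fun x => (norm_ee k x).le)

lemma cont_F (hf : Integrable f) : Continuous (F f) :=
  VectorFourier.fourierIntegral_continuous Real.continuous_fourierChar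
    (L := innerₗ (E d)) continuous_inner hf.ofReal

lemma F_zero (f : E d → ℝ) : F f 0 = ↑(∫ x, f x) := by
  rw [F_eq, ← integral_complex_ofReal]
  simp [ee]

lemma norm_F (f : E d → ℝ) (k : E d) : ‖F f k‖ ≤ ∫ x, |f x| := by
  rw [F_eq]
  refine (norm_integral_le_integral_norm _).trans (le_of_eq ?_)
  simp [norm_ee]

lemma F_neg (f : E d → ℝ) (k : E d) : F f (-k) = (starRingEnd ℂ) (F f k) := by
  rw [F_eq, F_eq, ← integral_conj]
  congr 1
  ext x
  simp only [ee, map_mul, conj_ofReal, ← exp_conj, conj_I, inner_neg_right]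
  congr 2
  push_cast
  ring

lemma F_comp_neg (f : E d → ℝ) (k : E d) : F (fun x => f (-x)) k = F f (-k) := by
  rw [F_eq, F_eq, ← integral_neg_eq_self]
  simp [ee]

lemma F_add (hf : Integrable f) (hg : Integrable g) (k : E d) :
    F (fun x => f x + g x) k = F f k + F g k := by
  rw [F_eq, F_eq, F_eq, ← integral_add (int_ee hf k) (int_ee hg k)]
  simp [mul_add]

lemma F_sub (hf : Integrable f) (hg : Integrable g) (k : E d) :
    F (fun x => f x - g x) k = F f k - F g k := by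
  rw [F_eq, F_eq, F_eq, ← integral_sub (int_ee hf k) (int_ee hg k)]
  simp [mul_sub]

lemma F_mul (c : ℝ) (f : E d → ℝ) (k : E d) : F (fun x => c * f x) k = c * F f k := by
  rw [F_eq, F_eq, ← integral_const_mul]
  simp [mul_left_comm]

lemma conv_eq (f g : E d → ℝ) : conv f g = f ⋆[ContinuousLinearMap.mul ℝ ℝ, volume] g := by
  ext x
  rw [convolution_eq_swap]
  rfl

lemma int_conv (hf : Integrable f) (hg : Integrable g) : Integrable (conv f g) := by
  rw [conv_eq]
  exact hf.integrable_convolution _ hg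

lemma F_conv (hf : Integrable f) (hg : Integrable g) (k : E d) :
    F (conv f g) k = F f k * F g k := by
  have : (fun x => (conv f g x : ℂ)) =
      (fun x => (f x : ℂ)) ⋆[ContinuousLinearMap.mul ℂ ℂ, volume] fun x => (g x : ℂ) := by
    ext x
    rw [convolution_eq_swap, conv, ← integral_complex_ofReal]
    simp
  rw [F, this]
  exact Real.fourier_mul_convolution_eq hf.ofReal hg.ofReal k

lemma lap_eq (η : E d → ℝ) (x : E d) : Δ η x =
    ∑ i, iteratedFDeriv ℝ 2 η x ![EuclideanSpace.basisFun (Fin d) ℝ i,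
      EuclideanSpace.basisFun (Fin d) ℝ i] := by
  rw [InnerProductSpace.laplacian_eq_iteratedFDeriv_orthonormalBasis η
    (EuclideanSpace.basisFun (Fin d) ℝ)]

lemma F_lap {η : E d → ℝ} (h : ContDiff ℝ (⊤ : ℕ∞) η) (hs : HasCompactSupport η) :
    Integrable (Δ η) ∧ ∀ k, F (Δ η) k = -((4 * π ^ 2 * ‖k‖ ^ 2 : ℝ) : ℂ) * F η k := by
  have hc : ContDiff ℝ (⊤ : ℕ∞) fun x => (η x : ℂ) := ofRealCLM.contDiff.comp h
  have hcs : HasCompactSupport fun x => (η x : ℂ) := hs.comp_left (g := fun t : ℝ => (t : ℂ)) (by simp)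
  have hi : ∀ n : ℕ, (n : ℕ∞) ≤ ⊤ → Integrable (iteratedFDeriv ℝ n fun x => (η x : ℂ)) := fun n _ =>
    (hc.continuous_iteratedFDeriv (by exact_mod_cast le_top)).integrable_of_hasCompactSupport
      (hcs.iteratedFDeriv n)
  have hi' : Integrable (iteratedFDeriv ℝ 2 η) :=
    (h.continuous_iteratedFDeriv (WithTop.coe_le_coe.2 (le_top (a := (2 : ℕ∞))))).integrable_of_hasCompactSupport
      (hs.iteratedFDeriv 2)
  have h1 : ∀ x, ((Δ η x : ℝ) : ℂ) = ∑ i, iteratedFDeriv ℝ 2 (fun x => (η x : ℂ)) x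
      ![EuclideanSpace.basisFun (Fin d) ℝ i, EuclideanSpace.basisFun (Fin d) ℝ i] := by
    intro x
    have := (h.contDiffAt (x := x)).of_le (show (2 : WithTop ℕ∞) ≤ (⊤ : ℕ∞) from WithTop.coe_le_coe.2 (le_top (a := (2 : ℕ∞))))
      |>.laplacian_CLM_comp_left (l := ofRealCLM)
    rw [InnerProductSpace.laplacian_eq_iteratedFDeriv_orthonormalBasis _
      (EuclideanSpace.basisFun (Fin d) ℝ)] at this
    exact this.symm
  have h2 : ∀ m : Fin 2 → E d, Integrable fun x => iteratedFDeriv ℝ 2 (fun x => (η x : ℂ)) x m :=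
    fun m => (ContinuousMultilinearMap.apply ℝ _ ℂ m).integrable_comp (hi 2 le_top)
  refine ⟨?_, fun k => ?_⟩
  · rw [show Δ η = fun x => _ from funext (lap_eq η)]
    exact integrable_finsetSum _ fun i _ =>
      (ContinuousMultilinearMap.apply ℝ _ ℝ _).integrable_comp hi'
  · have h3 : ∀ m : Fin 2 → E d, ∫ x, ee k x * iteratedFDeriv ℝ 2 (fun x => (η x : ℂ)) x m =
        (-(2 * π * I)) ^ 2 * (∏ i, -⟪k, m i⟫ : ℝ) * F η k := by
      intro m
      have := Real.fourier_continuousMultilinearMap_apply (hi 2 le_top) (m := m) (v := k)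
      rw [Real.fourier_iteratedFDeriv hc hi le_top, Real.fourier_eq'] at this
      simp only [VectorFourier.fourierPowSMulRight_apply] at this
      refine this.symm.trans ?_
      simp [F, mul_assoc, innerSL_apply_apply ℝ]
    rw [F_eq]
    simp only [h1, Finset.mul_sum]
    rw [integral_finsetSum _ fun i _ => (h2 _).bdd_mul (c := 1) (cont_ee k).aestronglyMeasurable
      (Eventually.of_forall fun x => (norm_ee k x).le)]
    simp only [h3]
    rw [← Finset.sum_mul, ← Finset.mul_sum, EuclideanSpace.real_norm_sq_eq]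
    congr 1
    simp only [Fin.prod_univ_two, Matrix.cons_val_zero, Matrix.cons_val_one,
      EuclideanSpace.inner_basisFun_real]
    rw [neg_sq, mul_pow, I_sq]
    push_cast
    ring_nf

lemma ex_test (k : E d) : ∃ η : E d → ℝ, ContDiff ℝ (⊤ : ℕ∞) η ∧ HasCompactSupport η ∧
    F η k ≠ 0 := by
  let χ : ContDiffBump (0 : E d) := ⟨1, 2, by norm_num, by norm_num⟩
  have h1 : ContDiff ℝ (⊤ : ℕ∞) fun x : E d => Real.cos (-2 * π * ⟪x, k⟫) :=
    Real.contDiff_cos.comp (contDiff_const.mul (contDiff_id.inner ℝ contDiff_const))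
  have h2 : ContDiff ℝ (⊤ : ℕ∞) fun x => χ x * Real.cos (-2 * π * ⟪x, k⟫) := χ.contDiff.mul h1
  refine ⟨_, h2, χ.hasCompactSupport.mul_right, fun h => ?_⟩
  have h3 := congrArg re h
  rw [F_eq, ← RCLike.re_to_complex, ← integral_re (int_ee (h2.continuous.integrable_of_hasCompactSupport
    χ.hasCompactSupport.mul_right) k)] at h3
  have h4 : ∀ x, RCLike.re (ee k x * ↑(χ x * Real.cos (-2 * π * ⟪x, k⟫))) =
      χ x * Real.cos (-2 * π * ⟪x, k⟫) ^ 2 := by
    intro x
    rw [RCLike.re_to_complex, re_mul_ofReal, ee, exp_ofReal_mul_I_re]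
    ring
  simp only [h4] at h3
  refine (Continuous.integral_pos_of_hasCompactSupport_nonneg_nonzero
    (χ.continuous.mul (h1.continuous.pow 2)) χ.hasCompactSupport.mul_right
    (fun x => mul_nonneg χ.nonneg (sq_nonneg _)) (x := 0) ?_).ne' h3
  simp [χ.one_of_mem_closedBall (mem_closedBall_self χ.rIn_pos.le)]

lemma weak {u : E d → ℝ} (hu : Integrable u) (hg : Integrable g) {c : ℝ}
    (h : ∀ φ : E d → ℝ, ContDiff ℝ (⊤ : ℕ∞) φ → HasCompactSupport φ →
      ∫ x, u x * (-c * Δ φ x) = ∫ x, g x * φ x) (k : E d) :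
    ((c * (4 * π ^ 2 * ‖k‖ ^ 2) : ℝ) : ℂ) * F u k = F g k := by
  obtain ⟨η, h1, h2, h3⟩ := ex_test (-k)
  obtain ⟨h4, h5⟩ := F_lap h1 h2
  have h6 : Integrable η := h1.continuous.integrable_of_hasCompactSupport h2
  have h7 : conv (fun x => -c * Δ η (-x)) u = conv (fun x => η (-x)) g := by
    ext y
    have := h (fun x => η (x - y)) (h1.comp (contDiff_id.sub contDiff_const))
      (h2.comp_homeomorph (Homeomorph.subRight y))
    simp only [lap_eq, iteratedFDeriv_comp_sub] at this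
    simp only [conv, neg_sub, lap_eq, mul_comm _ (u _), mul_comm _ (g _)]
    exact this
  have h8 := congrArg (fun f => F f k) h7
  rw [F_conv (h4.comp_neg.const_mul _) hu, F_conv h6.comp_neg hg, F_mul, F_comp_neg, F_comp_neg,
    h5, norm_neg] at h8
  refine mul_left_cancel₀ h3 (Eq.trans ?_ h8)
  push_cast
  ring

lemma strict {u : E d → ℝ} (hu : Integrable u) (h0 : ∀ᵐ x, 0 ≤ u x) {ρ : ℝ} (hρ : 0 < ρ)
    (h1 : ρ * ∫ x, u x ≤ 1) {k : E d} (hk : k ≠ 0) : ‖ρ * F u k‖ ≠ 1 := by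
  intro h
  obtain ⟨w, hw⟩ : ∃ w, w = (starRingEnd ℂ) (ρ * F u k) := ⟨_, rfl⟩
  have hw1 : ‖w‖ = 1 := by rw [hw, RCLike.norm_conj, h]
  have hi : Integrable fun x => w * (ee k x * u x) := (int_ee hu k).const_mul w
  have h2 : ρ * ∫ x, (w * ee k x).re * u x = 1 := by
    have : ∀ x, (w * ee k x).re * u x = RCLike.re (w * (ee k x * u x)) := fun x => by
      rw [RCLike.re_to_complex, ← mul_assoc, re_mul_ofReal]
    simp only [this]
    rw [integral_re hi, integral_const_mul, ← F_eq, RCLike.re_to_complex, ← re_ofReal_mul,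
      mul_left_comm, hw, conj_mul', h]
    simp
  have h3 : ∀ x, (w * ee k x).re ≤ 1 := fun x =>
    (re_le_norm _).trans (by rw [norm_mul, hw1, norm_ee, one_mul])
  have hi2 : Integrable fun x => (w * ee k x).re * u x :=
    hu.bdd_mul (c := 1) (continuous_re.comp (continuous_const.mul (cont_ee k))).aestronglyMeasurable
      (Eventually.of_forall fun x => (abs_re_le_norm _).trans
        (by rw [norm_mul, hw1, norm_ee, one_mul]))
  have h4 : ∀ᵐ x, 0 ≤ u x - (w * ee k x).re * u x := h0.mono fun x hx => by nlinarith [h3 x]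
  have h5 : ∫ x, u x - (w * ee k x).re * u x = 0 := by
    refine le_antisymm ?_ (integral_nonneg_of_ae h4)
    rw [integral_sub hu hi2]
    nlinarith
  have h6 := (integral_eq_zero_iff_of_nonneg_ae h4 (hu.sub hi2)).1 h5
  have h7 : {y : ℝ | w * cexp (↑(-2 * π * y) * I) = 1}.Countable := by
    rcases eq_empty_or_nonempty {y : ℝ | w * cexp (↑(-2 * π * y) * I) = 1} with h | ⟨y0, hy0⟩
    · rw [h]; exact countable_empty
    · refine (countable_range fun n : ℤ => y0 - n).mono fun y hy => ?_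
      have hw0 : w ≠ 0 := by rintro rfl; simp at hw1
      obtain ⟨n, hn⟩ := exp_eq_exp_iff_exists_int.1 (mul_left_cancel₀ hw0 (Eq.trans hy hy0.symm))
      refine ⟨n, ?_⟩
      have := congrArg im hn
      simp at this
      have hp := Real.pi_pos
      simp only
      nlinarith
  have h8 : ∀ᵐ x : E d, w * ee k x ≠ 1 := by
    have hs : Function.Surjective (innerₗ (E d) k) := fun t => ⟨(t / ‖k‖ ^ 2) • k, by
      have := norm_ne_zero_iff.2 hk
      simp
      field_simp⟩
    have := (ae_comp_linearMap_mem_iff (innerₗ (E d) k) volume volume hs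
      h7.measurableSet.compl).2 (h7.ae_notMem volume)
    refine this.mono fun x hx => ?_
    simpa [ee, real_inner_comm] using hx
  have h9 : ∀ᵐ x, u x = 0 := by
    filter_upwards [h6, h8] with x a b
    by_contra hx
    refine b ?_
    have h10 : (w * ee k x).re = 1 := by
      simp only [Pi.zero_apply] at a
      have : u x * (1 - (w * ee k x).re) = 0 := by linarith
      linarith [(mul_eq_zero.1 this).resolve_left hx]
    have h11 : ‖w * ee k x‖ = 1 := by rw [norm_mul, hw1, norm_ee, one_mul]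
    have h12 := Complex.sq_norm (w * ee k x)
    rw [h11, normSq_apply, h10] at h12
    exact Complex.ext (by simpa using h10) (by simp only [one_im]; nlinarith)
  rw [integral_eq_zero_of_ae (h9.mono fun x hx => by simp [hx])] at h2
  simp at h2

lemma alg {a s : ℝ} (ha : 0 < a) (hs : a < 4 * s) {w : ℂ} (h : a * w = -s * (1 - w) ^ 2) :
    ‖w‖ = 1 := by
  have h1 := congrArg re h
  have h2 := congrArg im h
  simp [sq] at h1 h2
  have h3 : w.re ^ 2 + w.im ^ 2 = 1 := by
    rcases eq_or_ne w.im 0 with h0 | h0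
    · rw [h0] at h1
      exfalso
      nlinarith [sq_nonneg (2 * s * w.re + a - 2 * s), mul_pos ha (sub_pos.2 hs)]
    · have h4 : a = 2 * s * (1 - w.re) := mul_right_cancel₀ h0 (by linarith)
      have h5 : s * (w.re ^ 2 + w.im ^ 2 - 1) = 0 := by rw [h4] at h1; linarith
      linarith [(mul_eq_zero.1 h5).resolve_left (by linarith)]
  rw [← sq_eq_sq₀ (norm_nonneg _) zero_le_one, Complex.sq_norm, normSq_apply]
  linarith

lemma main (hd : 2 ≤ d) {m : ℝ} (hm : 0 < m) {v : E d → ℝ} (hv : Integrable v) (h0 : ∀ x, 0 ≤ v x)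
    {M : ℝ} (hM : ∀ x, v x ≤ M) {r : ℝ} (hr : 0 < r) (hneg : ∀ k, ‖k‖ = r → (F v k).re < 0) :
    ∃ ρ₀ : ℝ, 0 < ρ₀ ∧ ∀ ρ, ρ₀ ≤ ρ → ∀ u : E d → ℝ, Integrable u → (∀ᵐ x, 0 ≤ u x ∧ u x ≤ 1) →
      ¬∀ φ : E d → ℝ, ContDiff ℝ (⊤ : ℕ∞) φ → HasCompactSupport φ →
        ∫ x, u x * (-(1 / m) * Δ φ x) = ∫ x, ((1 - u x) * v x -
          2 * ρ * conv u (fun y => (1 - u y) * v y) x +
          ρ ^ 2 * conv u (conv u fun y => (1 - u y) * v y) x) * φ x := by
  have hrk : 1 < Module.rank ℝ (E d) := by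
    rw [← Module.finrank_eq_rank, finrank_euclideanSpace_fin]
    exact_mod_cast hd
  have : Nontrivial (E d) := rank_pos_iff_nontrivial.1 (zero_lt_one.trans hrk)
  obtain ⟨k0, hk0, hmax⟩ := (isCompact_sphere (0 : E d) r).exists_isMaxOn
    (NormedSpace.sphere_nonempty.2 hr.le) (continuous_re.comp (cont_F hv)).continuousOn
  obtain ⟨c, hc⟩ : ∃ c, c = -(F v k0).re := ⟨_, rfl⟩
  have hc0 : 0 < c := by
    rw [hc]
    linarith [hneg k0 (mem_sphere_zero_iff_norm.1 hk0)]
  obtain ⟨a, ha⟩ : ∃ a, a = 1 / m * (4 * π ^ 2 * r ^ 2) := ⟨_, rfl⟩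
  have ha0 : 0 < a := by rw [ha]; positivity
  have hM0 : 0 ≤ M := (h0 0).trans (hM 0)
  refine ⟨(M + a) / c, by positivity, fun ρ hρ u hu hu1 H => ?_⟩
  have hρ0 : 0 < ρ := lt_of_lt_of_le (by positivity) hρ
  rw [div_le_iff₀ hc0] at hρ
  have huv : Integrable fun x => u x * v x :=
    hv.bdd_mul (c := 1) hu.1 (hu1.mono fun x hx => by rw [Real.norm_of_nonneg hx.1]; exact hx.2)
  obtain ⟨S, hS⟩ : ∃ S, S = fun y => (1 - u y) * v y := ⟨_, rfl⟩
  have hS' : S = fun y => v y - u y * v y := by rw [hS]; ext y; ring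
  have hSi : Integrable S := hS' ▸ hv.sub huv
  have i1 := int_conv hu hSi
  have i2 := int_conv hu i1
  have key : ∀ k, ((1 / m * (4 * π ^ 2 * ‖k‖ ^ 2) : ℝ) : ℂ) * F u k = F S k * (1 - ρ * F u k) ^ 2 := by
    intro k
    have := weak (g := fun x => S x - 2 * ρ * conv u S x + ρ ^ 2 * conv u (conv u S) x) hu
      ((hSi.sub (i1.const_mul _)).add (i2.const_mul _)) (by rw [hS]; exact H) k
    rw [this, F_add (f := fun x => S x - 2 * ρ * conv u S x) (hSi.sub (i1.const_mul _))
      (i2.const_mul _), F_sub hSi (i1.const_mul _), F_mul,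
      F_mul, F_conv hu i1, F_conv hu hSi]
    push_cast
    ring
  have hmass : ρ * ∫ x, u x ≤ 1 := by
    have h1 := key 0
    rw [F_zero, F_zero] at h1
    have h2 : (∫ x, S x) * (1 - ρ * ∫ x, u x) ^ 2 = 0 := by
      simp only [norm_zero] at h1
      exact_mod_cast (by simpa using h1.symm :
        ((∫ x, S x : ℝ) : ℂ) * (1 - ρ * ((∫ x, u x : ℝ) : ℂ)) ^ 2 = 0)
    rcases mul_eq_zero.1 h2 with h | h
    · have h3 := (integral_eq_zero_iff_of_nonneg_ae (hu1.mono fun x hx => by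
        rw [hS]; exact mul_nonneg (sub_nonneg.2 hx.2) (h0 x)) hSi).1 h
      have h4 : ∀ k, F S k = 0 := fun k => by
        rw [F_eq]
        exact integral_eq_zero_of_ae (h3.mono fun x hx => by simp [hx])
      have h5 : F u = fun _ => 0 := Continuous.ext_on (dense_compl_singleton 0) (cont_F hu)
        continuous_const fun k hk => by
          have h6 := key k
          rw [h4, zero_mul] at h6
          have := norm_pos_iff.2 hk
          exact (mul_eq_zero.1 h6).resolve_left (ofReal_ne_zero.2 (by positivity))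
      have h6 := F_zero u
      rw [h5] at h6
      rw [ofReal_eq_zero.1 h6.symm, mul_zero]
      exact zero_le_one
    · linarith [pow_eq_zero_iff (two_ne_zero) |>.1 h]
  obtain ⟨k, hk, hk'⟩ : ∃ k ∈ sphere (0 : E d) r, (F S k).im = 0 := by
    have hc : ContinuousOn (fun k => (F S k).im) (sphere (0 : E d) r) :=
      (continuous_im.comp (cont_F hSi)).continuousOn
    have hn : -k0 ∈ sphere (0 : E d) r := by simpa using hk0
    have e : (F S (-k0)).im = -(F S k0).im := by rw [F_neg, conj_im]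
    rcases le_total (F S k0).im 0 with h | h
    · exact (isPreconnected_sphere hrk 0 r).intermediate_value hk0 hn hc ⟨h, by linarith⟩
    · exact (isPreconnected_sphere hrk 0 r).intermediate_value hn hk0 hc ⟨by linarith, h⟩
  have hkr := mem_sphere_zero_iff_norm.1 hk
  have h1 : (F S k).re ≤ -c + M * ∫ x, u x := by
    rw [hS', F_sub hv huv, sub_re]
    have h2 : (F v k).re ≤ (F v k0).re := hmax hk
    have h3 : ∫ x, |u x * v x| ≤ M * ∫ x, u x := by
      rw [← integral_const_mul]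
      refine integral_mono_ae huv.abs (hu.const_mul _) (hu1.mono fun x hx => ?_)
      simp only
      rw [abs_of_nonneg (mul_nonneg hx.1 (h0 x)), mul_comm]
      exact mul_le_mul_of_nonneg_right (hM x) hx.1
    linarith [(abs_le.1 ((abs_re_le_norm _).trans ((norm_F _ k).trans h3))).1]
  refine strict hu (hu1.mono fun x hx => hx.1) hρ0 hmass (k := k)
    (by rintro rfl; rw [norm_zero] at hkr; exact hr.ne hkr)
    (alg (a := a / ρ) (s := -(F S k).re) (by positivity) ?_ ?_)
  · rw [div_lt_iff₀ hρ0]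
    nlinarith [mul_le_mul_of_nonneg_left h1 hρ0.le, mul_le_mul_of_nonneg_left hmass hM0]
  · have h2 := key k
    rw [hkr, ← ha] at h2
    have h3 : F S k = ((F S k).re : ℂ) := Complex.ext (by simp) (by simp [hk'])
    have h4 : (ρ : ℂ) ≠ 0 := ofReal_ne_zero.2 hρ0.ne'
    rw [ofReal_neg, neg_neg, ← h3, ← h2]
    push_cast
    field_simp

lemma gauss {b : ℝ} (hb : 0 < b) : Integrable (fun x : E d => Real.exp (-b * ‖x‖ ^ 2)) ∧
    ∀ k : E d, F (fun x => Real.exp (-b * ‖x‖ ^ 2)) k =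
      (((π / b) ^ (d / 2 : ℝ) * Real.exp (-π ^ 2 * ‖k‖ ^ 2 / b) : ℝ) : ℂ) := by
  constructor
  · have := (GaussianFourier.integrable_cexp_neg_mul_sq_norm_add (V := E d) (b := b)
      (by simpa using hb) 0 0).norm
    refine this.congr (Eventually.of_forall fun x => ?_)
    simp only [zero_mul, add_zero, norm_exp]
    congr 1
    simp [← ofReal_pow]
  · intro k
    have := fourier_gaussian_innerProductSpace (V := E d) (b := b) (by simpa using hb) k
    rw [F]
    push_cast
    rw [this, ofReal_cpow (by positivity)]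
    simp

lemma ex_neg : ∃ r : ℝ, 0 < r ∧ ∀ k : E d, ‖k‖ = r →
    (F (fun x => Real.exp (-2 * ‖x‖ ^ 2) * -1 + Real.exp (-1 * ‖x‖ ^ 2)) k).re < 0 := by
  refine ⟨d + 1, by positivity, fun k hk => ?_⟩
  obtain ⟨a1, a2⟩ := gauss (d := d) one_pos
  obtain ⟨b1, b2⟩ := gauss (d := d) two_pos
  rw [F_add (b1.mul_const _) a1]
  simp only [mul_comm _ (-1 : ℝ)]
  rw [F_mul, a2, b2, hk, ← ofReal_mul, ← ofReal_add, ofReal_re, div_one, div_one,
    Real.div_rpow Real.pi_pos.le zero_le_two]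
  have h1 : (2 : ℝ) ^ (d / 2 : ℝ) < Real.exp (π ^ 2 * (d + 1) ^ 2 / 2) := by
    rw [Real.rpow_def_of_pos two_pos, Real.exp_lt_exp]
    have h2 := Real.log_two_lt_d9
    have h3 := Real.pi_gt_three
    have h4 : (0 : ℝ) ≤ d := Nat.cast_nonneg d
    have h5 : (9 : ℝ) * (d + 1) ^ 2 ≤ π ^ 2 * (d + 1) ^ 2 := by
      refine mul_le_mul_of_nonneg_right (by nlinarith) (sq_nonneg _)
    nlinarith
  have h2 : Real.exp (-π ^ 2 * (d + 1) ^ 2 / 2) =
      Real.exp (-π ^ 2 * (d + 1) ^ 2) * Real.exp (π ^ 2 * (d + 1) ^ 2 / 2) := by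
    rw [← Real.exp_add]
    congr 1
    ring
  have h3 : (0 : ℝ) < 2 ^ (d / 2 : ℝ) := by positivity
  have h4 : 0 < π ^ (d / 2 : ℝ) * Real.exp (-π ^ 2 * (d + 1) ^ 2) := by positivity
  have h5 := mul_lt_mul_of_pos_left ((one_lt_div h3).2 h1) h4
  rw [h2]
  calc _ = π ^ (d / 2 : ℝ) * Real.exp (-π ^ 2 * (d + 1) ^ 2) * 1 - π ^ (d / 2 : ℝ) *
        Real.exp (-π ^ 2 * (d + 1) ^ 2) * (Real.exp (π ^ 2 * (d + 1) ^ 2 / 2) / 2 ^ (d / 2 : ℝ)) := by
        ring
    _ < 0 := sub_neg.2 h5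

end Pool.Agent.H.MP_ef05c8_mp.M
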